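import Mathlib
import Pool.Agent.H.MP_942486_an.A
import Pool.Agent.H.MP_e40715_an.A

set_option autoImplicit false

namespace Pool.Agent.Results.MP_942486_an.No

open MeasureTheory Set Filter Metric Pool.Agent.H.MP_942486_an
open scoped ENNReal

theorem result : ∃ (f : ℕ → ℝ → ℝ) (M : ℝ), (∀ n, Measurable (f n)) ∧ (∀ n x, |f n x| ≤ M) ∧
    (∀ n : ℕ, 1 ≤ n → ∀ x, f n (x + 1 / n) = f n x) ∧
    ¬ ∃ c : ℝ, ∀ᵐ x : ℝ, limsup (fun n => f n x) atTop = c := by
  choose S E h1 h2 h3 h4 h5 using fun k : ℕ => stage k (ε := (1 / 2) ^ k) (by positivity)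
  let D : ℕ → Set UnitAddCircle := fun n => ⋃ k, ⋃ _ : n ∈ S k, E k n
  have mD : ∀ n, MeasurableSet (D n) := fun n =>
    MeasurableSet.iUnion fun k => MeasurableSet.iUnion fun _ => h2 k n
  have iD : ∀ (n : ℕ) (a : ℤ), ∀ x ∈ D n, x + a • ((1 / n : ℝ) : UnitAddCircle) ∈ D n := by
    intro n a x hx
    obtain ⟨k, hk, hx⟩ := mem_iUnion₂.1 hx
    exact mem_iUnion₂.2 ⟨k, hk, h3 k n hk a x hx⟩
  let g : ℕ → UnitAddCircle → ℝ := fun n => (D n).indicator 1
  have mg : ∀ n, Measurable (g n) := fun n => measurable_one.indicator (mD n)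
  have b : ∀ n x, |g n x| ≤ 1 := fun n x => by by_cases h : x ∈ D n <;> simp [g, h]
  refine ⟨fun n x => g n x, 1, fun n => (mg n).comp AddCircle.measurable_mk', fun n x => b n x,
    fun n _ x => ?_, fun ⟨c, hc⟩ => ?_⟩
  · beta_reduce
    rw [AddCircle.coe_add]
    by_cases h : (x : UnitAddCircle) ∈ D n
    · simp only [g, indicator_of_mem h, indicator_of_mem (one_zsmul (((1 / n : ℝ) :
        UnitAddCircle)) ▸ iD n 1 _ h), Pi.one_apply]
    · simp only [g]
      rw [indicator_of_notMem h, indicator_of_notMem fun c => h (by simpa using iD n (-1) _ c)]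
  have hc : ∀ᵐ x : UnitAddCircle, limsup (fun n => g n x) atTop = c := by
    rw [← (UnitAddCircle.measurePreserving_mk 0).map_eq, ae_map_iff
      AddCircle.measurable_mk'.aemeasurable (measurableSet_eq_fun (Measurable.limsup mg)
        measurable_const)]
    exact ae_restrict_of_ae hc
  have c0 : c = 0 := by
    have bc := ae_eventually_notMem (μ := volume)
      (s := fun k => closedBall (0 : UnitAddCircle) (1 / 16) ∩ ⋃ n ∈ S k, E k n)
      (ne_top_of_le_ne_top (summable_geometric_two.tsum_ofReal_ne_top) (ENNReal.tsum_le_tsum h4))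
    obtain ⟨x, x1, x2, k, x3⟩ := Measure.exists_mem_of_measure_ne_zero_of_ae
      (measure_closedBall_pos volume (0 : UnitAddCircle) (show (0 : ℝ) < 1 / 16 by norm_num)).ne'
      (ae_restrict_of_ae (hc.and (bc.mono fun _ h => eventually_atTop.1 h)))
    rw [← x2, ← limsup_const (f := (atTop : Filter ℕ)) (0 : ℝ)]
    refine limsup_congr ?_
    filter_upwards [eventually_gt_atTop (((Finset.range k).biUnion S).sup id)] with n hn
    refine indicator_of_notMem (fun h => ?_) _
    obtain ⟨j, hj, h⟩ := mem_iUnion₂.1 h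
    rcases lt_or_ge j k with d | d
    · exact hn.not_ge (Finset.le_sup (f := id) (Finset.mem_biUnion.2 ⟨j, Finset.mem_range.2 d, hj⟩))
    · exact x3 j d ⟨x1, mem_iUnion₂.2 ⟨n, hj, h⟩⟩
  have := Pool.Agent.H.MP_e40715_an.fatou (μ := volume) (E := univ) (hc.mono fun x hx _ => by
    by_contra d
    have : 1 ≤ limsup (fun n => g n x) atTop := le_limsup_of_frequently_le
      (frequently_atTop.2 fun N => by
        obtain ⟨k, k1, k2⟩ := frequently_atTop.1 (not_eventually.1 d) N
        obtain ⟨n, n1, n2⟩ := mem_iUnion₂.1 (not_not.1 k2)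
        exact ⟨n, k1.trans (h1 k n n1), by
          simp [g, indicator_of_mem (show x ∈ D n from mem_iUnion₂.2 ⟨k, n1, n2⟩)]⟩)
      (isBoundedUnder_of ⟨1, fun n => (abs_le.1 (b n x)).2⟩)
    linarith) h5
  rw [measure_univ, ENNReal.one_le_ofReal] at this
  norm_num at this

end Pool.Agent.Results.MP_942486_an.No
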